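import Mathlib
import Pool.Agent.E8helper61.SI.Stm3

/-!
# From edges to vertices
-/

set_option autoImplicit false

open Finset

namespace Pool.Agent.E8helper99.SI

open Pool.Agent.E8helper61.SI

/-- AM–GM with equal weights. -/
lemma amgm {ι : Type*} (T : Finset ι) (f : ι → ℝ) (hf : ∀ i ∈ T, 0 ≤ f i)
    (hT : 0 < T.card) : ∏ i ∈ T, f i ≤ ((∑ i ∈ T, f i) / T.card) ^ T.card := by
  have hc : (0 : ℝ) < T.card := by exact_mod_cast hT
  have h := Real.geom_mean_le_arith_mean_weighted T (fun _ => 1 / (T.card : ℝ)) f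
    (fun _ _ => by positivity) (by rw [sum_const, nsmul_eq_mul]; field_simp) hf
  have h1 : (∏ i ∈ T, f i ^ (1 / (T.card : ℝ))) ^ T.card = ∏ i ∈ T, f i := by
    rw [← prod_pow]
    refine prod_congr rfl fun i hi => ?_
    rw [← Real.rpow_natCast, ← Real.rpow_mul (hf i hi), one_div, inv_mul_cancel₀ hc.ne',
      Real.rpow_one]
  rw [← h1]
  have h2 : ∑ i ∈ T, 1 / (T.card : ℝ) * f i = (∑ i ∈ T, f i) / T.card := by
    rw [← mul_sum]; ring
  rw [h2] at h
  exact pow_le_pow_left₀ (prod_nonneg fun i hi => Real.rpow_nonneg (hf i hi) _) h _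

/-- The pairs of `U` that contain `v`: there are `|U| - 1` of them. -/
lemma card_through {V : Type*} [DecidableEq V] (U : Finset V) (v : V) (hv : v ∈ U) :
    ((powersetCard 2 U).filter (fun e => v ∈ e)).card = U.card - 1 := by
  have : (powersetCard 2 U).filter (fun e => v ∈ e)
      = (U.erase v).image (fun u => ({v, u} : Finset V)) := by
    ext e
    rw [mem_filter, mem_powersetCard, mem_image]
    constructor
    · rintro ⟨⟨heU, hec⟩, hve⟩
      obtain ⟨a, b, hab, rfl⟩ := card_eq_two.1 hec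
      rcases mem_insert.1 hve with h | h
      · subst h
        exact ⟨b, mem_erase.2 ⟨hab.symm, heU (by simp)⟩, rfl⟩
      · rw [mem_singleton] at h
        subst h
        exact ⟨a, mem_erase.2 ⟨hab, heU (by simp)⟩, by rw [pair_comm]⟩
    · rintro ⟨u, hu, rfl⟩
      obtain ⟨hne, huU⟩ := mem_erase.1 hu
      refine ⟨⟨?_, card_pair hne.symm⟩, by simp⟩
      intro x hx
      simp only [mem_insert, mem_singleton] at hx
      rcases hx with rfl | rfl
      · exact hv
      · exact huU
  rw [this, card_image_of_injOn, card_erase_of_mem hv]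
  intro u hu w hw h
  rw [mem_coe, mem_erase] at hu hw
  simp only at h
  have h1 : u ∈ ({v, w} : Finset V) := by rw [← h]; simp
  simp only [mem_insert, mem_singleton] at h1
  rcases h1 with h1 | h1
  · exact absurd h1 hu.1
  · exact h1

/-- each pair is counted for its two vertices -/
lemma prod_sq {V : Type*} [DecidableEq V] (U : Finset V) (u : Finset V → ℝ) :
    (∏ e ∈ powersetCard 2 U, u e) ^ 2
      = ∏ v ∈ U, ∏ e ∈ (powersetCard 2 U).filter (fun e => v ∈ e), u e := by
  have h1 : ∀ v ∈ U, ∏ e ∈ (powersetCard 2 U).filter (fun e => v ∈ e), u e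
      = ∏ e ∈ powersetCard 2 U, if v ∈ e then u e else 1 := fun v _ => by
    rw [prod_filter]
  rw [prod_congr rfl h1, prod_comm, ← prod_pow]
  refine prod_congr rfl fun e he => ?_
  rw [← prod_filter, prod_const]
  have h2 : U.filter (fun v => v ∈ e) = e := by
    ext v
    rw [mem_filter]
    exact ⟨fun h => h.2, fun h => ⟨(mem_powersetCard.1 he).1 h, h⟩⟩
  rw [h2, (mem_powersetCard.1 he).2]

theorem vtx : VtxStatement := by
  intro n t u w θ δ ht hθ hδ hu
  have htR : (10 : ℝ) ≤ t := by exact_mod_cast ht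
  have ht1 : (0 : ℝ) < (t : ℝ) - 1 := by linarith
  have hl2 : 0 < Real.log 2 := Real.log_pos (by norm_num)
  have hl2' : Real.log 2 < 0.6931471808 := Real.log_two_lt_d9
  set D : Fin n → ℝ := fun v =>
    ∑ e ∈ (Ed (univ : Finset (Fin n))).filter (fun e => v ∈ e), w e with hD
  have hD0 : ∀ v, 0 ≤ D v := fun v => sum_nonneg fun e he => (hu e (mem_filter.1 he).1).2.2.1
  have hav : ∀ v, av t w v = D v / (((t : ℝ) - 1) * Real.log 2) := fun v => rfl
  have hav0 : ∀ v, 0 ≤ av t w v := fun v => by
    rw [hav]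
    exact div_nonneg (hD0 v) (by positivity)
  have hDav : ∀ v, D v = av t w v * (((t : ℝ) - 1) * Real.log 2) := by
    intro v
    rw [hav]
    field_simp
  have hx : ∀ v, 16 * D v / ((t : ℝ) - 1) = 16 * Real.log 2 * av t w v := by
    intro v
    rw [hDav]
    field_simp
  have hx0 : ∀ v, 0 ≤ 16 * D v / ((t : ℝ) - 1) := fun v => by
    have := hD0 v
    positivity
  set A : Fin n → ℝ := fun v => (16 * D v / ((t : ℝ) - 1)) ^ (((t : ℝ) - 1) / 8) with hA
  set B : Fin n → ℝ := fun v =>
    Real.exp ((((t : ℝ) - 1) * δ - θ * (((t : ℝ) - 1) * Real.log 2 - D v)) / 4) with hB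
  have hA0 : ∀ v, 0 ≤ A v := fun v => Real.rpow_nonneg (hx0 v) _
  have hB0 : ∀ v, 0 ≤ B v := fun v => (Real.exp_pos _).le
  refine ⟨fun v => min 1 (min (A v) (B v)), fun v => ⟨?_, min_le_left _ _, ?_, ?_⟩, ?_⟩
  · exact le_min zero_le_one (le_min (hA0 v) (hB0 v))
  · rcases le_or_gt (16 * D v / ((t : ℝ) - 1)) 1 with h | h
    · have h1 : A v ≤ (16 * D v / ((t : ℝ) - 1)) ^ (1 : ℝ) :=
        Real.rpow_le_rpow_of_exponent_ge' (hx0 v) h zero_le_one (by linarith)
      rw [Real.rpow_one, hx] at h1
      have h2 : min 1 (min (A v) (B v)) ≤ A v := (min_le_right _ _).trans (min_le_left _ _)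
      have h3 := hav0 v
      nlinarith
    · rw [hx] at h
      have h2 : min 1 (min (A v) (B v)) ≤ 1 := min_le_left _ _
      have h3 := hav0 v
      nlinarith
  · have h2 : min 1 (min (A v) (B v)) ≤ B v := (min_le_right _ _).trans (min_le_right _ _)
    have h3 : 0 ≤ min 1 (min (A v) (B v)) := le_min zero_le_one (le_min (hA0 v) (hB0 v))
    calc (min 1 (min (A v) (B v))) ^ 2 ≤ (B v) ^ 2 := pow_le_pow_left₀ h3 h2 2
      _ = Real.exp (((t : ℝ) - 1) * δ / 2) *
          Real.exp (-((((t : ℝ) - 1) * θ * Real.log 2 / 2) * (1 - av t w v))) := by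
          simp only [hB]
          rw [← Real.exp_nat_mul, ← Real.exp_add, hDav]
          congr 1
          push_cast
          ring
  · intro U hU
    have hEd : Ed U = powersetCard 2 U := rfl
    have hsub : ∀ e ∈ Ed U, e ∈ Ed (univ : Finset (Fin n)) := fun e he =>
      powersetCard_mono (subset_univ U) he
    have hP : ∀ v ∈ U, ∏ e ∈ (powersetCard 2 U).filter (fun e => v ∈ e), u e ≤
        (min 1 (min (A v) (B v))) ^ 4 := by
      intro v hv
      set T := (powersetCard 2 U).filter (fun e => v ∈ e) with hT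
      have hTc : T.card = t - 1 := by rw [hT, card_through U v hv, hU]
      have hTcR : (T.card : ℝ) = (t : ℝ) - 1 := by
        rw [hTc, Nat.cast_sub (by omega)]; simp
      have hTu : ∀ e ∈ T, 0 ≤ u e ∧ u e ≤ 1 ∧ 0 ≤ w e ∧ (u e) ^ 2 ≤ 16 * w e ∧
          u e ≤ Real.exp (-(θ * (Real.log 2 - w e)) + δ) := fun e he =>
        hu e (hsub e (mem_filter.1 he).1)
      have hP0 : 0 ≤ ∏ e ∈ T, u e := prod_nonneg fun e he => (hTu e he).1
      have hsum : ∑ e ∈ T, w e ≤ D v := by
        refine sum_le_sum_of_subset_of_nonneg ?_ (fun e he _ => (hu e (mem_filter.1 he).1).2.2.1)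
        intro e he
        rw [hT, mem_filter] at he
        exact mem_filter.2 ⟨hsub e he.1, he.2⟩
      have c1 : ∏ e ∈ T, u e ≤ 1 := prod_le_one (fun e he => (hTu e he).1) fun e he => (hTu e he).2.1
      have c2 : ∏ e ∈ T, u e ≤ (A v) ^ 4 := by
        have h1 : (∏ e ∈ T, u e) ^ 2 ≤ ((A v) ^ 4) ^ 2 := by
          rw [← prod_pow]
          have h2 := amgm T (fun e => (u e) ^ 2) (fun _ _ => sq_nonneg _) (by rw [hTc]; omega)
          have h3 : (∑ e ∈ T, (u e) ^ 2) / T.card ≤ 16 * D v / ((t : ℝ) - 1) := by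
            rw [hTcR]
            apply div_le_div_of_nonneg_right _ ht1.le
            calc ∑ e ∈ T, (u e) ^ 2 ≤ ∑ e ∈ T, 16 * w e := sum_le_sum fun e he => (hTu e he).2.2.2.1
              _ = 16 * ∑ e ∈ T, w e := by rw [mul_sum]
              _ ≤ 16 * D v := by linarith
          have h0 : 0 ≤ (∑ e ∈ T, (u e) ^ 2) / T.card :=
            div_nonneg (sum_nonneg fun _ _ => sq_nonneg _) (Nat.cast_nonneg _)
          have h4 : ((A v) ^ 4) ^ 2 = (16 * D v / ((t : ℝ) - 1)) ^ T.card := by
            simp only [hA]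
            rw [← pow_mul, ← Real.rpow_natCast, ← Real.rpow_mul (hx0 v), ← Real.rpow_natCast, hTcR]
            congr 1
            push_cast
            ring
          rw [h4]
          exact h2.trans (pow_le_pow_left₀ h0 h3 _)
        exact le_of_pow_le_pow_left₀ (by norm_num) (pow_nonneg (hA0 v) 4) h1
      have c3 : ∏ e ∈ T, u e ≤ (B v) ^ 4 := by
        calc ∏ e ∈ T, u e ≤ ∏ e ∈ T, Real.exp (-(θ * (Real.log 2 - w e)) + δ) :=
              prod_le_prod (fun e he => (hTu e he).1) fun e he => (hTu e he).2.2.2.2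
          _ = Real.exp (∑ e ∈ T, (-(θ * (Real.log 2 - w e)) + δ)) := by rw [Real.exp_sum]
          _ ≤ (B v) ^ 4 := by
              simp only [hB]
              rw [← Real.exp_nat_mul]
              apply Real.exp_le_exp.2
              have : ∑ e ∈ T, (-(θ * (Real.log 2 - w e)) + δ) =
                  θ * ∑ e ∈ T, w e + T.card * (δ - θ * Real.log 2) := by
                rw [mul_sum]
                have : ∀ e ∈ T, (-(θ * (Real.log 2 - w e)) + δ) = θ * w e + (δ - θ * Real.log 2) :=
                  fun e _ => by ring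
                rw [sum_congr rfl this, sum_add_distrib, sum_const, nsmul_eq_mul]
              rw [this, hTcR]
              push_cast
              nlinarith [mul_le_mul_of_nonneg_left hsum hθ]
      rcases min_choice 1 (min (A v) (B v)) with h | h
      · rw [h]; simpa using c1
      · rw [h]
        rcases min_choice (A v) (B v) with h' | h'
        · rw [h']; exact c2
        · rw [h']; exact c3
    rw [hEd]
    have hfin : (∏ e ∈ powersetCard 2 U, u e) ^ 2 ≤
        (∏ v ∈ U, (min 1 (min (A v) (B v))) ^ 2) ^ 2 := by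
      rw [prod_sq, ← prod_pow]
      refine prod_le_prod (fun v _ => prod_nonneg fun e he =>
        (hu e (hsub e (mem_filter.1 he).1)).1) fun v hv => ?_
      rw [← pow_mul]
      exact hP v hv
    exact le_of_pow_le_pow_left₀ (by norm_num) (prod_nonneg fun v _ => sq_nonneg _) hfin

theorem deg : DegStatement := by
  intro n t w ht
  unfold av
  rw [← sum_div]
  congr 1
  have h1 : ∀ v ∈ (univ : Finset (Fin n)),
      ∑ e ∈ (Ed (univ : Finset (Fin n))).filter (fun e => v ∈ e), w e
      = ∑ e ∈ Ed (univ : Finset (Fin n)), if v ∈ e then w e else 0 := fun v _ => by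
    rw [sum_filter]
  rw [sum_congr rfl h1, sum_comm, mul_sum]
  refine sum_congr rfl fun e he => ?_
  rw [← sum_filter, sum_const]
  have h2 : (univ : Finset (Fin n)).filter (fun v => v ∈ e) = e := by
    ext v
    simp
  rw [h2, (mem_powersetCard.1 he).2]
  simp

end Pool.Agent.E8helper99.SI
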